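import Pool.Agent.J4H58.SB.Trb
import Pool.Agent.J4H58.OC.Asm3
import Pool.Agent.J4H57.OC.A4

/-! Assembly of the project SB. -/

set_option autoImplicit false

namespace Pool.Agent.J4H58.SB.Asm

open MeasureTheory Set Filter Topology ProbabilityTheory
open scoped ENNReal InnerProductSpace
open Pool.Agent.R972.OP (WC pd)
open Pool.Agent.J4H58.OC
open Pool.Agent.W695.KH (Eu EU EV VV Sm)

variable {w : ℝ → ℝ} {n : ℕ}

/-- symmetric closure without loops -/
def clo (R : SL n → SL n → Prop) : SL n → SL n → Prop := fun x y =>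
  (R x y ∨ R (ng y) (ng x)) ∧ x ≠ y

theorem ng_ng (x : SL n) : ng (ng x) = x := by
  obtain ⟨a, b⟩ := x
  simp [ng]

theorem clo_sy (R : SL n → SL n → Prop) : Sy (clo R) := by
  rintro x y ⟨h1, h2⟩
  refine ⟨?_, fun h => h2 ?_⟩
  · rw [ng_ng, ng_ng]
    exact h1.symm
  · rw [← ng_ng x, ← ng_ng y, h]

theorem clo_irr (R : SL n → SL n → Prop) : ∀ a, ¬ clo R a a := fun _ h => h.2 rfl

theorem sv_ng (x : Fin n → ℝ) (a : SL n) : sv x (ng a) = -sv x a := by
  obtain ⟨a, b⟩ := a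
  cases b <;> simp [sv, ng]

theorem ordB_clo (R : SL n → SL n → Prop) : ordB (clo R) = ordB R := by
  ext x
  constructor
  · intro h a b hab
    by_cases he : a = b
    · rw [he]
    · exact h a b ⟨Or.inl hab, he⟩
  · rintro h a b ⟨h1 | h1, -⟩
    · exact h a b h1
    · have h2 := h _ _ h1
      rw [sv_ng, sv_ng] at h2
      linarith

theorem lawA_prob (hw : LD w) {A : Set (Fin n → ℝ)} (hA : pn w n A ≠ 0) :
    IsProbabilityMeasure (lawA w A) := by
  have := pn_prob (n := n) hw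
  have h1 : IsProbabilityMeasure ((pn w n A)⁻¹ • (pn w n).restrict A) := by
    refine ⟨?_⟩
    rw [Measure.smul_apply, Measure.restrict_apply_univ, smul_eq_mul]
    exact ENNReal.inv_mul_cancel hA (measure_ne_top _ _)
  exact Measure.isProbabilityMeasure_map toLp_meas.aemeasurable

theorem lawA_int (w : ℝ → ℝ) (A : Set (Fin n → ℝ)) (G : EuclideanSpace ℝ (Fin n) → ℝ) :
    ∫ x, G x ∂(lawA w A) =
      (pn w n A).toReal⁻¹ * ∫ x in A, G (WithLp.toLp 2 x) ∂(pn w n) := by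
  unfold lawA
  have hme : MeasurableEmbedding (fun x : Fin n → ℝ => (WithLp.toLp 2 x : EuclideanSpace ℝ (Fin n))) :=
    (MeasurableEquiv.toLp 2 (Fin n → ℝ)).measurableEmbedding
  have h1 := hme.integral_map (μ := (pn w n A)⁻¹ • (pn w n).restrict A) G
  refine Eq.trans h1 ?_
  rw [integral_smul_measure, ENNReal.toReal_inv, smul_eq_mul]

/-- **the Poincaré inequality from lattice approximations** -/
theorem pi_of (hTR : S_TRB) {K : ℝ} (hw : LD w) (he : ∀ x, w (-x) = w x) (hK : 0 < K)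
    (hg : ∀ᶠ δ : ℝ in 𝓝[>] 0, GoodB w K δ)
    (R : SL n → SL n → Prop) (hR : pn w n (ordB R) ≠ 0) : PI (lawA w (ordB R)) K := by
  have := lawA_prob hw hR
  have := pn_prob (n := n) hw
  refine Pool.Agent.J4H21.OC.Ext.t_EXT n (lawA w (ordB R)) inferInstance K hK ?_
  intro f hf hcs
  have h1 := hTR w K hw he hK hg n (clo R) (clo_sy R) (clo_irr R)
    (f ∘ Pool.Agent.R711.POBE.L n)
    (hf.comp (Pool.Agent.R711.POBE.L n).contDiff)
    (hcs.comp_homeomorph (Pool.Agent.R711.POBE.L n).toHomeomorph)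
  rw [ordB_clo] at h1
  simp only [Pool.Agent.R711.POBE.sum_pd] at h1
  have hV : 0 < (pn w n (ordB R)).toReal := ENNReal.toReal_pos hR (measure_ne_top _ _)
  set V := (pn w n (ordB R)).toReal with hVdef
  rw [lawA_int, lawA_int, lawA_int, ← hVdef]
  have e1 : ∀ x : Fin n → ℝ, (f ∘ Pool.Agent.R711.POBE.L n) x = f (WithLp.toLp 2 x) := fun x => rfl
  simp only [e1] at h1
  generalize (∫ x in ordB R, f (WithLp.toLp 2 x) ^ 2 ∂(pn w n)) = A at *
  generalize (∫ x in ordB R, f (WithLp.toLp 2 x) ∂(pn w n)) = B at *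
  generalize (∫ x in ordB R, ‖fderiv ℝ f (WithLp.toLp 2 x)‖ ^ 2 ∂(pn w n)) = D at *
  have e2 : V⁻¹ * A - (V⁻¹ * B) ^ 2 = (V * A - B ^ 2) / V ^ 2 := by
    field_simp
  have e3 : K * (V⁻¹ * D) = (V * (K * D)) / V ^ 2 := by
    field_simp
  rw [e2, e3]
  exact div_le_div_of_nonneg_right h1 (by positivity)

/-- **the sharp inequality** -/
theorem pi_sharp (hTR : S_TRB) (hGB : S_GOODB) {K : ℝ} (hw : LD w) (he : ∀ x, w (-x) = w x)
    (hK : 0 < K) (h : PI1 (nu w) K) (R : SL n → SL n → Prop) (hR : pn w n (ordB R) ≠ 0) :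
    PI (lawA w (ordB R)) K := by
  have h1 := Pool.Agent.J4H64.OC.t_ONE w K hw hK h
  refine pi_closed hK fun K' hK' => ?_
  have h2 := Pool.Agent.J4H52.OC.t_GOOD w K hw hK h1 K' hK'
  have h8 : ∀ᶠ δ : ℝ in 𝓝[>] 0, δ < 1 / 2 :=
    nhdsWithin_le_nhds (Iio_mem_nhds (by norm_num))
  refine pi_of hTR hw he (hK.trans hK') ?_ R hR
  filter_upwards [h2, h8, self_mem_nhdsWithin] with δ h3 h4 h5
  exact hGB w K' δ hw he h5 h4 h3

theorem w_zero (hw : LD w) (he : ∀ x, w (-x) = w x) (x : ℝ) : w x ≤ w 0 := by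
  have h := hw.logc x (-x) (1 / 2) (by norm_num) (by norm_num)
  rw [he] at h
  have e1 : (1 - 1 / 2 : ℝ) * x + 1 / 2 * -x = 0 := by ring
  have e2 : w x ^ (1 - 1 / 2 : ℝ) * w x ^ (1 / 2 : ℝ) = w x := by
    rcases (hw.nonneg x).eq_or_lt with h0 | h0
    · rw [← h0, Real.zero_rpow (by norm_num), zero_mul]
    · rw [← Real.rpow_add h0]
      norm_num
  rwa [e1, e2] at h

theorem w_pos (hw : LD w) (he : ∀ x, w (-x) = w x) : 0 < w 0 := by
  obtain ⟨s, hs⟩ := exists_pos hw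
  exact hs.trans_le (w_zero hw he s)

/-- **KLS, in the form of a Poincaré inequality** -/
theorem pi_kls (hTR : S_TRB) (hGB : S_GOODB) {c : ℝ} (hc : 0 < c)
    (hV : ∀ (w : ℝ → ℝ) (n : ℕ) (R : SL n → SL n → Prop), LD w →
      (∀ x, w (-x) = w x) → 1 ≤ n → pn w n (ordB R) ≠ 0 → ∀ s : ℝ, 0 < s →
      (∀ θ : EuclideanSpace ℝ (Fin n), ‖θ‖ = 1 →
        variance (fun x => ⟪x, θ⟫_ℝ) (lawA w (ordB R)) ≤ s) → c ≤ s * w 0 ^ 2)
    (hw : LD w) (he : ∀ x, w (-x) = w x) (hn : 1 ≤ n) (R : SL n → SL n → Prop)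
    (hR : pn w n (ordB R) ≠ 0) {σ : ℝ} (hσ : 0 < σ)
    (h : ∀ θ : EuclideanSpace ℝ (Fin n), ‖θ‖ = 1 →
      variance (fun x => ⟪x, θ⟫_ℝ) (lawA w (ordB R)) ≤ σ) :
    PI (lawA w (ordB R)) (4 * σ / c) := by
  have h0 := w_pos hw he
  have h1 := hV w n R hw he hn hR σ hσ h
  have h2 := pi_sharp hTR hGB hw he (by positivity) (pi1_four hw h0) R hR
  intro f hf
  refine (h2 f hf).trans ?_
  have h3 : 4 / w 0 ^ 2 ≤ 4 * σ / c := by
    rw [div_le_div_iff₀ (by positivity) hc]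
    nlinarith
  gcongr

theorem ordB_convex (R : SL n → SL n → Prop) : Convex ℝ (ordB R) := by
  intro x hx y hy a b ha hb hab r s hrs
  have e : ∀ q : SL n, sv (a • x + b • y) q = a * sv x q + b * sv y q := by
    intro q
    unfold sv
    split_ifs
    · simp
    · simp
      ring
  rw [e, e]
  exact add_le_add (mul_le_mul_of_nonneg_left (hx r s hrs) ha)
    (mul_le_mul_of_nonneg_left (hy r s hrs) hb)

/-- **KLS for the conditioned points, all measurable sets** -/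
theorem kls_sets (hTR : S_TRB) (hGB : S_GOODB) (hDEN : S_DENB) {c : ℝ} (hc : 0 < c)
    (hV : ∀ (w : ℝ → ℝ) (n : ℕ) (R : SL n → SL n → Prop), LD w →
      (∀ x, w (-x) = w x) → 1 ≤ n → pn w n (ordB R) ≠ 0 → ∀ s : ℝ, 0 < s →
      (∀ θ : EuclideanSpace ℝ (Fin n), ‖θ‖ = 1 →
        variance (fun x => ⟪x, θ⟫_ℝ) (lawA w (ordB R)) ≤ s) → c ≤ s * w 0 ^ 2)
    (hw : LD w) (he : ∀ x, w (-x) = w x) (hn : 1 ≤ n) (R : SL n → SL n → Prop)
    (hR : pn w n (ordB R) ≠ 0) {σ : ℝ} (hσ : 0 < σ)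
    (h : ∀ θ : EuclideanSpace ℝ (Fin n), ‖θ‖ = 1 →
      variance (fun x => ⟪x, θ⟫_ℝ) (lawA w (ordB R)) ≤ σ)
    (S : Set (EuclideanSpace ℝ (Fin n))) (hS : MeasurableSet S) :
    ENNReal.ofReal (Real.sqrt c / 16 / Real.sqrt σ) *
      min (lawA w (ordB R) S) (lawA w (ordB R) Sᶜ) ≤
      liminf (fun ε : ℝ => (lawA w (ordB R) (Metric.thickening ε S) - lawA w (ordB R) S) /
        ENNReal.ofReal ε) (𝓝[>] 0) := by
  have hprob := lawA_prob hw hR
  obtain ⟨ρ, hρ, hlaw⟩ := hDEN w n (ordB R) hw (Trb.ordB_closed R) (ordB_convex R) hR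
  have hPI := pi_kls hTR hGB hc hV hw he hn R hR hσ h
  rw [hlaw] at hPI
  have h1 := cheeger Pool.Agent.J4H57.OC.t_APX hn hρ (by positivity) hPI S hS
  rw [← hlaw] at h1
  set μ := lawA w (ordB R) with hμ
  set P := liminf (fun ε : ℝ => (μ (Metric.thickening ε S) - μ S) / ENNReal.ofReal ε) (𝓝[>] 0)
    with hP
  have hsq : 0 < Real.sqrt σ := Real.sqrt_pos.2 hσ
  have hsc : 0 < Real.sqrt c := Real.sqrt_pos.2 hc
  have h2 : Real.sqrt (4 * σ / c) = 2 * Real.sqrt σ / Real.sqrt c := by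
    rw [Real.sqrt_div (by positivity), Real.sqrt_mul (by norm_num)]
    congr 2
    rw [show (4 : ℝ) = 2 ^ 2 by norm_num]
    exact Real.sqrt_sq (by norm_num)
  rw [h2] at h1
  rw [prob_compl_eq_one_sub hS]
  have h3 := min_le_two (p := μ S) prob_le_one
  calc ENNReal.ofReal (Real.sqrt c / 16 / Real.sqrt σ) * min (μ S) (1 - μ S)
      ≤ ENNReal.ofReal (Real.sqrt c / 16 / Real.sqrt σ) * (2 * (μ S * (1 - μ S))) := by gcongr
    _ ≤ ENNReal.ofReal (Real.sqrt c / 16 / Real.sqrt σ) *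
          (2 * (ENNReal.ofReal (4 * (2 * Real.sqrt σ / Real.sqrt c)) * P)) := by
        gcongr
    _ = P := by
        have e1 : (2 : ℝ≥0∞) = ENNReal.ofReal 2 := by norm_num
        rw [e1, ← mul_assoc, ← mul_assoc, ← ENNReal.ofReal_mul (by positivity),
          ← ENNReal.ofReal_mul (by positivity)]
        have e2 : Real.sqrt c / 16 / Real.sqrt σ * 2 * (4 * (2 * Real.sqrt σ / Real.sqrt c)) = 1 := by
          field_simp
          norm_num
        rw [e2, ENNReal.ofReal_one, one_mul]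

end Pool.Agent.J4H58.SB.Asm
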