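import Pool.Agent.J4H58.SB.Stm

/-! Basic lemmas on the reflections `rf` and the admissible placements `cfgB` (project SB). -/

set_option autoImplicit false

namespace Pool.Agent.J4H58.SB

variable {n N : ℕ} {R : SL n → SL n → Prop}

theorem mir_lt {k : ℕ} (h : k < 2 * N) : mir N k < 2 * N := by
  unfold mir
  omega

theorem mir_mir {k : ℕ} (h : k < 2 * N) : mir N (mir N k) = k := by
  unfold mir
  omega

theorem mir_ne {k : ℕ} (h : k < 2 * N) : mir N k ≠ k := by
  unfold mir
  omega

theorem mir_inj {k l : ℕ} (hk : k < 2 * N) (hl : l < 2 * N) (h : mir N k = mir N l) : k = l := by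
  unfold mir at h
  omega

/-- the reflection as a function -/
theorem rf_apply {i j : ℕ} (hi : i < 2 * N) (hj : j < 2 * N) (hij : i ≠ j) (p : ℕ) :
    rf N i j p = if p = i then j else if p = j then i else if p = mir N i then mir N j
      else if p = mir N j then mir N i else p := by
  unfold rf
  by_cases h : j = mir N i
  · rw [if_pos h, Equiv.swap_apply_def]
    unfold mir at h ⊢
    split_ifs <;> omega
  · rw [if_neg h, Equiv.Perm.mul_apply, Equiv.swap_apply_def, Equiv.swap_apply_def]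
    unfold mir at h ⊢
    split_ifs <;> omega

theorem rf_lt {i j : ℕ} (hi : i < 2 * N) (hj : j < 2 * N) (hij : i ≠ j) {p : ℕ} (hp : p < 2 * N) :
    rf N i j p < 2 * N := by
  have h1 := mir_lt hi
  have h2 := mir_lt hj
  rw [rf_apply hi hj hij]
  split_ifs <;> assumption

theorem rf_rf {i j : ℕ} (hi : i < 2 * N) (hj : j < 2 * N) (hij : i ≠ j) (p : ℕ) :
    rf N i j (rf N i j p) = p := by
  rw [rf_apply hi hj hij, rf_apply hi hj hij]
  unfold mir
  split_ifs <;> omega

/-- reflections commute with the mirror -/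
theorem rf_mir {i j : ℕ} (hi : i < 2 * N) (hj : j < 2 * N) (hij : i ≠ j) {p : ℕ}
    (hp : p < 2 * N) : rf N i j (mir N p) = mir N (rf N i j p) := by
  rw [rf_apply hi hj hij, rf_apply hi hj hij]
  unfold mir
  split_ifs <;> omega

theorem mvB_mvB {i j : ℕ} (hi : i < 2 * N) (hj : j < 2 * N) (hij : i ≠ j) (g : Fin n → ℕ) :
    mvB N i j (mvB N i j g) = g := by
  funext a
  exact rf_rf hi hj hij (g a)

theorem ps_lt {g : Fin n → ℕ} (h : ∀ a, g a < 2 * N) (x : SL n) : ps N g x < 2 * N := by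
  unfold ps
  split_ifs
  · exact h _
  · exact mir_lt (h _)

theorem ps_ng {g : Fin n → ℕ} (h : ∀ a, g a < 2 * N) (x : SL n) :
    ps N g (ng x) = mir N (ps N g x) := by
  obtain ⟨a, b⟩ := x
  cases b
  · simp [ps, ng, mir_mir (h a)]
  · simp [ps, ng]

theorem ps_mvB {i j : ℕ} (hi : i < 2 * N) (hj : j < 2 * N) (hij : i ≠ j) {g : Fin n → ℕ}
    (h : ∀ a, g a < 2 * N) (x : SL n) : ps N (mvB N i j g) x = rf N i j (ps N g x) := by
  obtain ⟨a, b⟩ := x
  cases b
  · simp only [ps, mvB, Bool.false_eq_true, if_false]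
    rw [rf_mir hi hj hij (h a)]
  · simp [ps, mvB]

theorem mem_cfgB {g : Fin n → ℕ} : g ∈ cfgB N R ↔
    (∀ a, g a < 2 * N) ∧ Function.Injective (ps N g) ∧ ∀ x y, R x y → ps N g x < ps N g y := by
  classical
  unfold cfgB
  simp only [Finset.mem_filter, Fintype.mem_piFinset, Finset.mem_range]

theorem ps_inj_mvB {i j : ℕ} (hi : i < 2 * N) (hj : j < 2 * N) (hij : i ≠ j) {g : Fin n → ℕ}
    (h : ∀ a, g a < 2 * N) (hg : Function.Injective (ps N g)) :
    Function.Injective (ps N (mvB N i j g)) := by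
  intro x y hxy
  rw [ps_mvB hi hj hij h, ps_mvB hi hj hij h] at hxy
  exact hg ((rf N i j).injective hxy)

/-- the elementary moves, as functions on the sites -/
theorem rf_succ {k : ℕ} (hk : k < N) (p : ℕ) :
    rf N k (k + 1) p = if p = k then k + 1 else if p = k + 1 then k
      else if p = mir N k then mir N (k + 1) else if p = mir N (k + 1) then mir N k else p :=
  rf_apply (by omega) (by omega) (by omega) p

/-- an elementary move is admissible iff the labels at `k`, `k + 1` are not related -/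
theorem mvB_mem_iff (hS : Sy R) {g : Fin n → ℕ} (hg : g ∈ cfgB N R) {k : ℕ} (hk : k < N) :
    mvB N k (k + 1) g ∈ cfgB N R ↔ ∀ x y, R x y → ¬ (ps N g x = k ∧ ps N g y = k + 1) := by
  obtain ⟨h1, h2, h3⟩ := mem_cfgB.mp hg
  have hi : k < 2 * N := by omega
  have hj : k + 1 < 2 * N := by omega
  have hij : k ≠ k + 1 := by omega
  rw [mem_cfgB]
  constructor
  · rintro ⟨-, -, h⟩ x y hxy ⟨hx, hy⟩
    have := h x y hxy
    rw [ps_mvB hi hj hij h1, ps_mvB hi hj hij h1, hx, hy, rf_succ hk, rf_succ hk] at this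
    simp at this
  · intro h
    refine ⟨fun a => rf_lt hi hj hij (h1 a), ps_inj_mvB hi hj hij h1 h2, fun x y hxy => ?_⟩
    rw [ps_mvB hi hj hij h1, ps_mvB hi hj hij h1, rf_succ hk, rf_succ hk]
    have e1 := h3 x y hxy
    have e2 := h x y hxy
    have e3 := h (ng y) (ng x) (hS x y hxy)
    rw [ps_ng h1, ps_ng h1] at e3
    have e4 := ps_lt h1 x
    have e5 := ps_lt h1 y
    unfold mir at e3 ⊢
    split_ifs <;> omega

/-- conjugation of one reflection by an elementary move (on the sites below `2 N`) -/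
theorem rf_conj {k l i j : ℕ} (hk : k < 2 * N) (hl : l < 2 * N) (hkl : k ≠ l) (hi : i < 2 * N)
    (hj : j < 2 * N) (hij : i ≠ j) {p : ℕ} (hp : p < 2 * N) :
    rf N k l (rf N i j p) = rf N (rf N k l i) (rf N k l j) (rf N k l p) := by
  have h1 := rf_lt hk hl hkl hi
  have h2 := rf_lt hk hl hkl hj
  have h3 : rf N k l i ≠ rf N k l j := fun h => hij ((rf N k l).injective h)
  rw [rf_apply h1 h2 h3, rf_apply hi hj hij]
  have e : ∀ q r : ℕ, rf N k l q = rf N k l r ↔ q = r := fun q r =>
    (rf N k l).injective.eq_iff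
  rw [← rf_mir hk hl hkl hi, ← rf_mir hk hl hkl hj]
  simp only [e]
  split_ifs <;> rfl

theorem mvB_conj {k l i j : ℕ} (hk : k < 2 * N) (hl : l < 2 * N) (hkl : k ≠ l) (hi : i < 2 * N)
    (hj : j < 2 * N) (hij : i ≠ j) {g : Fin n → ℕ} (hg : ∀ a, g a < 2 * N) :
    mvB N k l (mvB N i j g) = mvB N (rf N k l i) (rf N k l j) (mvB N k l g) := by
  funext a
  exact rf_conj hk hl hkl hi hj hij (hg a)

end Pool.Agent.J4H58.SB
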