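import Pool.Agent.J4H58.SB.Bas
import Pool.Agent.J4H58.OC.Lim

/-! SB-LIMB: the weighted Poincaré inequality on the polytopes (after `J4H58.OC.Lim`). -/

set_option autoImplicit false

namespace Pool.Agent.J4H58.SB.Limb

open MeasureTheory Set Filter Topology Pool.Agent.R972.OP Pool.Agent.R874.OP
open Pool.Agent.J4H58.OC (rt)
open Pool.Agent.J4H58.OC.Lim (lhs up)

variable {n : ℕ} {f : (Fin n → ℝ) → ℝ} {b : ℝ → ℝ}

theorem OPB_closed (R : SL n → SL n → Prop) : IsClosed (OPB R) := by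
  have h1 : OPB R = (⋂ i, ({x : Fin n → ℝ | 0 ≤ x i} ∩ {x : Fin n → ℝ | x i ≤ 1})) ∩
      ⋂ a, ⋂ b, ⋂ (_ : R a b), {x : Fin n → ℝ | cv x a ≤ cv x b} := by
    ext x
    simp [OPB]
  have hc : ∀ a : SL n, Continuous fun x : Fin n → ℝ => cv x a := by
    intro a
    unfold cv
    split_ifs
    · exact continuous_apply _
    · exact continuous_const.sub (continuous_apply _)
  rw [h1]
  refine IsClosed.inter (isClosed_iInter fun i => IsClosed.inter ?_ ?_)
    (isClosed_iInter fun i => isClosed_iInter fun j => isClosed_iInter fun _ => ?_)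
  · exact isClosed_le continuous_const (continuous_apply i)
  · exact isClosed_le (continuous_apply i) continuous_const
  · exact isClosed_le (hc _) (hc _)

theorem OPB_compact (R : SL n → SL n → Prop) : IsCompact (OPB R) := by
  refine (isCompact_Icc (a := (0 : Fin n → ℝ)) (b := 1)).of_isClosed_subset (OPB_closed R) ?_
  intro x hx
  exact ⟨fun i => (hx.1 i).1, fun i => (hx.1 i).2⟩

/-- bounded energy of one elementary move -/
theorem upB (hb : ContinuousOn b (Icc 0 1)) (hb0 : ∀ x ∈ Icc (0 : ℝ) 1, 0 ≤ b x)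
    (hf : ContDiff ℝ 1 f) : ∃ C : ℝ, 0 ≤ C ∧ ∀ (N : ℕ) (g : Fin n → ℕ), 0 < N →
      (∀ a, g a < 2 * N) → ∀ k, k + 1 < 2 * N →
        rt b (2 * N) k * (f (lp (2 * N) (mvB N k (k + 1) g)) - f (lp (2 * N) g)) ^ 2 ≤ C := by
  have hK : IsCompact (Icc (0 : Fin n → ℝ) 1) := isCompact_Icc
  have hK1 : IsCompact (Icc (0 : ℝ) 1) := isCompact_Icc
  obtain ⟨L, hL⟩ := hK.exists_bound_of_continuousOn (hf.continuous_fderiv one_ne_zero).continuousOn
  obtain ⟨A, hA⟩ := hK1.exists_bound_of_continuousOn hb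
  have hA' : ∀ x ∈ Icc (0 : ℝ) 1, b x ≤ |A| := by
    intro x hx
    have h1 := hA x hx
    rw [Real.norm_eq_abs] at h1
    exact (le_abs_self _).trans (h1.trans (le_abs_self _))
  refine ⟨|A| * L ^ 2, by positivity, fun N g hN hg k hk => ?_⟩
  have hNp : 0 < 2 * N := by omega
  have hN' : (0 : ℝ) < (2 * N : ℕ) := by exact_mod_cast hNp
  have hi : k < 2 * N := by omega
  have hij : k ≠ k + 1 := by omega
  have hmv : ∀ e, mvB N k (k + 1) g e < 2 * N := fun e => rf_lt hi hk hij (hg e)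
  have hx := lp_mem hNp fun a => (hg a).le
  have hx' := lp_mem hNp fun e => (hmv e).le
  have h1 := (convex_Icc (0 : Fin n → ℝ) 1).norm_image_sub_le_of_norm_fderiv_le
    (𝕜 := ℝ) (f := f) (C := L) (fun x _ => (hf.differentiable one_ne_zero x))
    (fun x hx => hL x hx) hx hx'
  have hL0 : 0 ≤ L := (norm_nonneg _).trans (hL _ hx)
  have h2 : ‖lp (2 * N) (mvB N k (k + 1) g) - lp (2 * N) g‖ ≤ 1 / ((2 * N : ℕ) : ℝ) := by
    rw [pi_norm_le_iff_of_nonneg (by positivity)]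
    intro e
    rw [Pi.sub_apply, Real.norm_eq_abs]
    unfold Pool.Agent.R972.OP.lp
    rw [← sub_div, abs_div, abs_of_pos hN']
    apply div_le_div_of_nonneg_right _ hN'.le
    have h3 : mvB N k (k + 1) g e ≤ g e + 1 ∧ g e ≤ mvB N k (k + 1) g e + 1 := by
      show rf N k (k + 1) (g e) ≤ g e + 1 ∧ g e ≤ rf N k (k + 1) (g e) + 1
      rw [rf_apply hi hk hij]
      have := hg e
      unfold mir
      split_ifs <;> omega
    obtain ⟨h4, h5⟩ := h3
    have h4' : (mvB N k (k + 1) g e : ℝ) ≤ (g e : ℝ) + 1 := by exact_mod_cast h4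
    have h5' : (g e : ℝ) ≤ (mvB N k (k + 1) g e : ℝ) + 1 := by exact_mod_cast h5
    rw [abs_le]
    constructor <;> linarith
  have h3 : ‖f (lp (2 * N) (mvB N k (k + 1) g)) - f (lp (2 * N) g)‖ ≤
      L * (1 / ((2 * N : ℕ) : ℝ)) := h1.trans (mul_le_mul_of_nonneg_left h2 hL0)
  rw [Real.norm_eq_abs] at h3
  have h4 : (f (lp (2 * N) (mvB N k (k + 1) g)) - f (lp (2 * N) g)) ^ 2 ≤
      (L * (1 / ((2 * N : ℕ) : ℝ))) ^ 2 := by
    rw [← sq_abs]
    exact pow_le_pow_left₀ (abs_nonneg _) h3 2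
  have hy : ((k : ℝ) + 1) / ((2 * N : ℕ) : ℝ) ∈ Icc (0 : ℝ) 1 := by
    have h6 : ((k : ℝ) + 1) ≤ ((2 * N : ℕ) : ℝ) := by exact_mod_cast hk.le
    constructor
    · positivity
    · rw [div_le_one hN']
      exact h6
  have h7 := hb0 _ hy
  have h8 := hA' _ hy
  unfold rt
  generalize ((2 * N : ℕ) : ℝ) = X at *
  calc X ^ 2 * b (((k : ℝ) + 1) / X) * (f (lp (2 * N) (mvB N k (k + 1) g)) - f (lp (2 * N) g)) ^ 2
      ≤ X ^ 2 * b (((k : ℝ) + 1) / X) * (L * (1 / X)) ^ 2 :=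
        mul_le_mul_of_nonneg_left h4 (by positivity)
    _ = b (((k : ℝ) + 1) / X) * L ^ 2 := by field_simp
    _ ≤ |A| * L ^ 2 := mul_le_mul_of_nonneg_right h8 (sq_nonneg _)

theorem limb (h1 : S_LATB) (h2 : S_RSB) (h3 : S_ADJB) (h4 : S_UPCB) : S_LIMB := by
  classical
  intro b hb hb0 hbs hW n R hS hR f hf
  obtain ⟨err', C', herr', hC', hbd'⟩ := up hb hb0 hf
  obtain ⟨C, hC, hbdC⟩ := upB hb hb0 hf
  set err : ℕ → ℝ := fun N => err' (2 * N) with herrdef
  have htwo : Tendsto (fun N : ℕ => 2 * N) atTop atTop :=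
    tendsto_atTop_mono (fun N => by show N ≤ 2 * N; omega) tendsto_id
  have herr : Tendsto err atTop (𝓝 0) := herr'.comp htwo
  have hcf : Continuous f := hf.continuous
  -- a continuous extension of `b`
  set be : ℝ → ℝ := fun x => b (max 0 (min 1 x)) with hbe
  have hbec : Continuous be := by
    have h5 : ∀ x : ℝ, max 0 (min 1 x) ∈ Icc (0 : ℝ) 1 := fun x =>
      ⟨le_max_left _ _, max_le zero_le_one (min_le_left _ _)⟩
    exact hb.comp_continuous (by fun_prop) h5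
  have hbee : ∀ x ∈ Icc (0 : ℝ) 1, be x = b x := by
    intro x hx
    simp only [hbe, min_eq_right hx.2, max_eq_right hx.1]
  have hcG : Continuous (fun x : Fin n → ℝ => ∑ a, be (x a) * pd f a x ^ 2) :=
    continuous_finsetSum _ fun a _ => (hbec.comp (continuous_apply a)).mul ((pd_cont hf a).pow 2)
  have t1 := h2 n R hR (fun _ => (1 : ℝ)) continuous_const
  have tf := h2 n R hR f hcf
  have tf2 := h2 n R hR (fun x => f x ^ 2) (hcf.pow 2)
  have tG := h2 n R hR (fun x => ∑ a, be (x a) * pd f a x ^ 2) hcG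
  have tA := h3 n R
  have hvol : (∫ _x in OPB R, (1 : ℝ)) = (volume (OPB R)).toReal := by
    rw [setIntegral_const]
    simp [Measure.real]
  rw [hvol] at t1
  have hmeas : MeasurableSet (OPB R) := (OPB_closed R).measurableSet
  have hGeq : ∫ x in OPB R, ∑ a, b (x a) * pd f a x ^ 2 =
      ∫ x in OPB R, ∑ a, be (x a) * pd f a x ^ 2 := by
    apply setIntegral_congr_fun hmeas
    intro x hx
    apply Finset.sum_congr rfl
    intro a _
    rw [hbee _ (hx.1 a)]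
  rw [hGeq]
  -- the limits of both sides
  have tL := (t1.mul tf2).sub (tf.pow 2)
  have tR := t1.mul ((((tG.const_mul (2 : ℝ)).add (herr.mul t1)).add
    (tA.const_mul C)).const_mul (1 / 2 : ℝ))
  have hlim : (volume (OPB R)).toReal * (1 / 2 * (2 *
      (∫ x in OPB R, ∑ a, be (x a) * pd f a x ^ 2) + 0 * (volume (OPB R)).toReal + C * 0)) =
      (volume (OPB R)).toReal * ∫ x in OPB R, ∑ a, be (x a) * pd f a x ^ 2 := by ring
  rw [hlim] at tR
  refine le_of_tendsto_of_tendsto tL tR ?_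
  filter_upwards [eventually_gt_atTop 0, hW] with N hN hWN
  obtain ⟨W, c, m, wc, hcle⟩ := hWN
  have hNp : 0 < 2 * N := by omega
  have hN0 : (0 : ℝ) < ((2 * N : ℕ) : ℝ) := by exact_mod_cast hNp
  have hNn : (0 : ℝ) < ((2 * N : ℕ) : ℝ) ^ n := by positivity
  have hrt0 : ∀ k, k + 1 < 2 * N → 0 ≤ rt b (2 * N) k := fun k hk =>
    (wc.wc.nonneg k hk).trans (hcle k hk)
  have hrts : ∀ k, k + 1 < 2 * N → rt b (2 * N) (2 * N - 2 - k) = rt b (2 * N) k := by
    intro k hk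
    unfold rt
    congr 1
    have e1 : (((2 * N - 2 - k : ℕ) : ℝ) + 1) / ((2 * N : ℕ) : ℝ) =
        1 - ((k : ℝ) + 1) / ((2 * N : ℕ) : ℝ) := by
      rw [eq_sub_iff_add_eq, ← add_div, div_eq_one_iff_eq hN0.ne']
      have e2 : (2 * N - 2 - k) + 1 + (k + 1) = 2 * N := by omega
      exact_mod_cast e2
    rw [e1]
    apply hbs
    have h6 : ((k : ℝ) + 1) ≤ ((2 * N : ℕ) : ℝ) := by exact_mod_cast hk.le
    constructor
    · positivity
    · rw [div_le_one hN0]
      exact h6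
  have hlat := h1 n N R W c m hS wc (fun g => f (lp (2 * N) g))
  have hQc : ∀ g : Fin n → ℕ, QQB N R c (fun g => f (lp (2 * N) g)) g ≤
      QQB N R (rt b (2 * N)) (fun g => f (lp (2 * N) g)) g := by
    intro g
    unfold QQB
    apply Finset.sum_le_sum
    intro k hk
    have hk' : k + 1 < 2 * N := by
      have := Finset.mem_range.1 hk
      omega
    split_ifs
    · exact mul_le_mul_of_nonneg_right (hcle k hk') (sq_nonneg _)
    · exact le_rfl
  have hQ : ∀ g ∈ cfgB N R, QQB N R c (fun g => f (lp (2 * N) g)) g ≤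
      2 * (∑ a, be (lp (2 * N) g a) * pd f a (lp (2 * N) g) ^ 2) + err N +
        C * ((adjB N g).card : ℝ) := by
    intro g hg
    obtain ⟨hlt, hinj, -⟩ := mem_cfgB.1 hg
    have hb1 := (hbd' (2 * N) g hNp hlt).1
    refine (hQc g).trans ((h4 n N R (rt b (2 * N)) (fun g => f (lp (2 * N) g)) hrt0 hrts g hg).trans
      ?_)
    have hx := lp_mem hNp fun a => (hlt a).le
    have e1 : ∑ a, be (lp (2 * N) g a) * pd f a (lp (2 * N) g) ^ 2 =
        ∑ a, b (lp (2 * N) g a) * pd f a (lp (2 * N) g) ^ 2 := by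
      apply Finset.sum_congr rfl
      intro a _
      rw [hbee _ ⟨hx.1 a, hx.2 a⟩]
    rw [e1]
    apply add_le_add hb1
    calc _ ≤ (adjB N g).card • C := by
          apply Finset.sum_le_card_nsmul
          intro p hp
          unfold adjB at hp
          rw [Finset.mem_filter] at hp
          apply hbdC N g hN hlt
          have := ps_lt hlt p.2
          omega
      _ = C * ((adjB N g).card : ℝ) := by
          rw [nsmul_eq_mul, mul_comm]
  have hsum : ∑ g ∈ cfgB N R, QQB N R c (fun g => f (lp (2 * N) g)) g ≤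
      2 * (∑ g ∈ cfgB N R, ∑ a, be (lp (2 * N) g a) * pd f a (lp (2 * N) g) ^ 2) +
        (cfgB N R).card * err N + C * ∑ g ∈ cfgB N R, ((adjB N g).card : ℝ) := by
    refine (Finset.sum_le_sum hQ).trans (le_of_eq ?_)
    rw [Finset.sum_add_distrib, Finset.sum_add_distrib, Finset.sum_const, nsmul_eq_mul,
      Finset.mul_sum, Finset.mul_sum]
  have hfin : ((cfgB N R).card : ℝ) * ∑ g ∈ cfgB N R, f (lp (2 * N) g) ^ 2 -
      (∑ g ∈ cfgB N R, f (lp (2 * N) g)) ^ 2 ≤ (cfgB N R).card * (1 / 2 * (2 *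
        (∑ g ∈ cfgB N R, ∑ a, be (lp (2 * N) g a) * pd f a (lp (2 * N) g) ^ 2) +
        (cfgB N R).card * err N + C * ∑ g ∈ cfgB N R, ((adjB N g).card : ℝ))) := by
    refine hlat.trans ?_
    apply mul_le_mul_of_nonneg_left _ (Nat.cast_nonneg _)
    exact mul_le_mul_of_nonneg_left hsum (by norm_num)
  have hcard1 : (∑ _g ∈ cfgB N R, (1 : ℝ)) = (cfgB N R).card := by simp
  show (∑ _g ∈ cfgB N R, (1 : ℝ)) / ((2 * N : ℕ) : ℝ) ^ n *
        ((∑ g ∈ cfgB N R, f (lp (2 * N) g) ^ 2) / ((2 * N : ℕ) : ℝ) ^ n) -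
      ((∑ g ∈ cfgB N R, f (lp (2 * N) g)) / ((2 * N : ℕ) : ℝ) ^ n) ^ 2 ≤
    (∑ _g ∈ cfgB N R, (1 : ℝ)) / ((2 * N : ℕ) : ℝ) ^ n * (1 / 2 * (2 *
      ((∑ g ∈ cfgB N R, ∑ a, be (lp (2 * N) g a) * pd f a (lp (2 * N) g) ^ 2) /
        ((2 * N : ℕ) : ℝ) ^ n) +
      err N * ((∑ _g ∈ cfgB N R, (1 : ℝ)) / ((2 * N : ℕ) : ℝ) ^ n) +
        C * ((∑ g ∈ cfgB N R, ((adjB N g).card : ℝ)) / ((2 * N : ℕ) : ℝ) ^ n)))
  rw [hcard1]
  generalize ((2 * N : ℕ) : ℝ) ^ n = X at *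
  have hl : ((cfgB N R).card : ℝ) / X * ((∑ g ∈ cfgB N R, f (lp (2 * N) g) ^ 2) / X) -
      ((∑ g ∈ cfgB N R, f (lp (2 * N) g)) / X) ^ 2 =
      (((cfgB N R).card : ℝ) * ∑ g ∈ cfgB N R, f (lp (2 * N) g) ^ 2 -
      (∑ g ∈ cfgB N R, f (lp (2 * N) g)) ^ 2) / X ^ 2 := by
    field_simp
  have hr : ((cfgB N R).card : ℝ) / X * (1 / 2 * (2 *
      ((∑ g ∈ cfgB N R, ∑ a, be (lp (2 * N) g a) * pd f a (lp (2 * N) g) ^ 2) / X) +
      err N * (((cfgB N R).card : ℝ) / X) +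
        C * ((∑ g ∈ cfgB N R, ((adjB N g).card : ℝ)) / X))) =
      ((cfgB N R).card * (1 / 2 * (2 * (∑ g ∈ cfgB N R, ∑ a, be (lp (2 * N) g a) *
        pd f a (lp (2 * N) g) ^ 2) +
        (cfgB N R).card * err N + C * ∑ g ∈ cfgB N R, ((adjB N g).card : ℝ)))) / X ^ 2 := by
    field_simp
  rw [hl, hr]
  exact div_le_div_of_nonneg_right hfin (by positivity)

end Pool.Agent.J4H58.SB.Limb
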