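import Pool.Agent.J4H58.SB.Asm

/-! The conditioning event has positive probability if the system has a strict solution. -/

set_option autoImplicit false

namespace Pool.Agent.J4H58.SB.Pos

open MeasureTheory Set Filter Topology
open scoped ENNReal
open Pool.Agent.J4H58.OC

variable {w : ℝ → ℝ} {n : ℕ}

/-- positive near zero -/
theorem w_near (hw : LD w) (he : ∀ x, w (-x) = w x) : ∃ r : ℝ, 0 < r ∧ ∀ x, |x| < r → 0 < w x := by
  -- a point `s ≠ 0` with `w s > 0`
  obtain ⟨s, hs0, hs⟩ : ∃ s, s ≠ 0 ∧ 0 < w s := by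
    by_contra h
    push Not at h
    have h1 : w =ᵐ[volume] fun _ => 0 := by
      have h2 : ∀ᵐ x : ℝ, x ≠ 0 := by
        rw [ae_iff]
        have : {x : ℝ | ¬ x ≠ 0} = {0} := by ext x; simp
        rw [this]
        exact measure_singleton 0
      filter_upwards [h2] with x hx
      exact le_antisymm (h x hx) (hw.nonneg x)
    have h3 := hw.one
    rw [integral_congr_ae h1, integral_zero] at h3
    exact zero_ne_one h3
  refine ⟨|s|, abs_pos.2 hs0, fun x hx => ?_⟩
  have hs' : 0 < w |s| := by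
    rcases abs_cases s with ⟨h, -⟩ | ⟨h, -⟩
    · rwa [h]
    · rw [h, he]
      exact hs
  have hsn : 0 < w (-|s|) := by rw [he]; exact hs'
  have habs := abs_pos.2 hs0
  set t : ℝ := (x + |s|) / (2 * |s|) with ht
  obtain ⟨hx1, hx2⟩ := abs_lt.1 hx
  have ht0 : 0 < t := div_pos (by linarith) (by positivity)
  have ht1 : t < 1 := by
    rw [ht, div_lt_one (by positivity)]
    linarith
  have h1 := hw.logc (-|s|) |s| t ht0 ht1
  have e : (1 - t) * -|s| + t * |s| = x := by
    have e1 : t * (2 * |s|) = x + |s| := by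
      rw [ht]
      field_simp
    linarith
  rw [e] at h1
  exact lt_of_lt_of_le (mul_pos (Real.rpow_pos_of_pos hsn _) (Real.rpow_pos_of_pos hs' _)) h1

theorem pos (hw : LD w) (he : ∀ x, w (-x) = w x) (R : SL n → SL n → Prop)
    (h : ∃ x : Fin n → ℝ, ∀ a b, R a b → a ≠ b → sv x a < sv x b) : pn w n (ordB R) ≠ 0 := by
  obtain ⟨r, hr, hwr⟩ := w_near hw he
  obtain ⟨x0, hx0⟩ := h
  set U : Set (Fin n → ℝ) := {x | (∀ a b, R a b → a ≠ b → sv x a < sv x b) ∧ ∀ i, |x i| < r} with hU
  have hUo : IsOpen U := by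
    have h1 : U = (⋂ a, ⋂ b, ⋂ (_ : R a b), ⋂ (_ : a ≠ b), {x : Fin n → ℝ | sv x a < sv x b}) ∩
        ⋂ i, {x : Fin n → ℝ | |x i| < r} := by
      ext x
      simp [hU]
    rw [h1]
    refine IsOpen.inter (isOpen_iInter_of_finite fun a => isOpen_iInter_of_finite fun b =>
      isOpen_iInter_of_finite fun _ => isOpen_iInter_of_finite fun _ => ?_)
      (isOpen_iInter_of_finite fun i => ?_)
    · exact isOpen_lt (Trb.sv_cont a) (Trb.sv_cont b)
    · exact isOpen_lt (continuous_abs.comp (continuous_apply i)) continuous_const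
  have hUn : U.Nonempty := by
    obtain ⟨t, ht0, ht⟩ : ∃ t : ℝ, 0 < t ∧ ∀ i, t * |x0 i| < r := by
      refine ⟨r / (∑ i, |x0 i| + 1), by positivity, fun i => ?_⟩
      have h1 : |x0 i| ≤ ∑ i, |x0 i| :=
        Finset.single_le_sum (f := fun i => |x0 i|) (fun i _ => abs_nonneg _) (Finset.mem_univ i)
      have h2 : 0 < ∑ i, |x0 i| + 1 := by
        have : 0 ≤ ∑ i, |x0 i| := Finset.sum_nonneg fun i _ => abs_nonneg _
        linarith
      rw [div_mul_eq_mul_div, div_lt_iff₀ h2]
      nlinarith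
    refine ⟨t • x0, fun a b hab hne => ?_, fun i => ?_⟩
    · have e : ∀ q : SL n, sv (t • x0) q = t * sv x0 q := by
        intro q
        unfold sv
        split_ifs <;> simp
      rw [e, e]
      exact mul_lt_mul_of_pos_left (hx0 a b hab hne) ht0
    · rw [Pi.smul_apply, smul_eq_mul, abs_mul, abs_of_pos ht0]
      exact ht i
  have hUv : 0 < volume U := hUo.measure_pos volume hUn
  have hsub : U ⊆ ordB R := by
    intro x hx a b hab
    by_cases hne : a = b
    · rw [hne]
    · exact (hx.1 a b hab hne).le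
  have hUp : pn w n U ≠ 0 := by
    rw [Pool.Agent.J4H52.OC.pn_eq hw n]
    have hmeas : Measurable fun y : Fin n → ℝ => ∏ i, ENNReal.ofReal (w (y i)) :=
      Finset.measurable_prod _ fun i _ =>
        ((Pool.Agent.J4H52.OC.w_meas hw).ennreal_ofReal).comp (measurable_pi_apply i)
    rw [withDensity_apply _ hUo.measurableSet]
    intro h0
    rw [lintegral_eq_zero_iff hmeas] at h0
    have h1 : ∀ᵐ x ∂(volume.restrict U), x ∈ U := ae_restrict_mem hUo.measurableSet
    have h2 : ∀ᵐ _x ∂(volume.restrict U), False := by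
      filter_upwards [h0, h1] with x hx1 hx2
      have h3 : (0 : ℝ≥0∞) < ∏ i, ENNReal.ofReal (w (x i)) := by
        rw [pos_iff_ne_zero, Finset.prod_ne_zero_iff]
        intro i _
        exact (ENNReal.ofReal_pos.2 (hwr _ (hx2.2 i))).ne'
      exact h3.ne' hx1
    rw [Filter.eventually_false_iff_eq_bot, ae_eq_bot, Measure.restrict_eq_zero] at h2
    exact hUv.ne' h2
  exact fun h0 => hUp (measure_mono_null hsub h0)

end Pool.Agent.J4H58.SB.Pos
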