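import Pool.Agent.J4H58.OC.Stm3

/-!
# Independent points conditioned on signed order relations: statements (project SB, MP_6d896a_gt)

`n` independent points with an even log-concave density, conditioned on inequalities of the form
`± x_i ≤ ± x_j`. Lattice model: `2 N` sites `0, ..., 2 N - 1`, the mirror image of the site `k` is
`2 N - 1 - k`; the label `a` sits at the site `g a`, its mirror image at the mirror image of `g a`.
-/

set_option autoImplicit false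

namespace Pool.Agent.J4H58.SB

open MeasureTheory Set Filter Topology ProbabilityTheory
open scoped ENNReal InnerProductSpace
open Pool.Agent.R972.OP (WC lp pd)
open Pool.Agent.J4H58.OC (LD nu pn rt qt Fc PI1 PI Good LDn)
open Pool.Agent.W695.KH (Eu)

/-- signed labels -/
abbrev SL (n : ℕ) : Type := Fin n × Bool

section

variable {n : ℕ}

/-- change of the sign -/
def ng (x : SL n) : SL n := (x.1, !x.2)

/-- symmetric relations: `x ≤ y` and `-y ≤ -x` are the same condition -/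
def Sy (R : SL n → SL n → Prop) : Prop := ∀ x y, R x y → R (ng y) (ng x)

/-! ### lattice -/

/-- mirror image of a site -/
def mir (N k : ℕ) : ℕ := 2 * N - 1 - k

/-- site of a signed label -/
def ps (N : ℕ) (g : Fin n → ℕ) (x : SL n) : ℕ := if x.2 then g x.1 else mir N (g x.1)

/-- reflection: exchange the sites `i` and `j`, and their mirror images -/
def rf (N i j : ℕ) : Equiv.Perm ℕ :=
  if j = mir N i then Equiv.swap i j else Equiv.swap i j * Equiv.swap (mir N i) (mir N j)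

/-- its action on placements -/
def mvB (N i j : ℕ) (g : Fin n → ℕ) : Fin n → ℕ := fun a => rf N i j (g a)

open Classical in
/-- admissible placements -/
noncomputable def cfgB (N : ℕ) (R : SL n → SL n → Prop) : Finset (Fin n → ℕ) :=
  (Fintype.piFinset fun _ => Finset.range (2 * N)).filter
    fun g => Function.Injective (ps N g) ∧ ∀ x y, R x y → ps N g x < ps N g y

open Classical in
/-- contribution of the elementary move `k` to the generator, `k < N` (for `k = N - 1`: the central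
exchange, because `mir N (N - 1) = N`) -/
noncomputable def ttB (N : ℕ) (R : SL n → SL n → Prop) (c : ℕ → ℝ) (F : (Fin n → ℕ) → ℝ)
    (g : Fin n → ℕ) (k : ℕ) : ℝ :=
  if mvB N k (k + 1) g ∈ cfgB N R then c k * (F (mvB N k (k + 1) g) - F g) else 0

/-- generator -/
noncomputable def LLB (N : ℕ) (R : SL n → SL n → Prop) (c : ℕ → ℝ) (F : (Fin n → ℕ) → ℝ)
    (g : Fin n → ℕ) : ℝ := ∑ k ∈ Finset.range N, ttB N R c F g k

open Classical in
/-- local energy -/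
noncomputable def QQB (N : ℕ) (R : SL n → SL n → Prop) (c : ℕ → ℝ) (F : (Fin n → ℕ) → ℝ)
    (g : Fin n → ℕ) : ℝ := ∑ k ∈ Finset.range N,
  if mvB N k (k + 1) g ∈ cfgB N R then c k * (F (mvB N k (k + 1) g) - F g) ^ 2 else 0

/-- signed distance of the reflection (`i`, `j`) -/
noncomputable def om (N : ℕ) (W : ℕ → ℝ) (i j : ℕ) : ℝ :=
  if j = mir N i then (W j - W i) / 2 else W j - W i

open Classical in
/-- pairs of signed labels at neighbouring sites, not mirror images of each other -/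
noncomputable def adjB (N : ℕ) (g : Fin n → ℕ) : Finset (SL n × SL n) :=
  Finset.univ.filter fun p => ps N g p.2 = ps N g p.1 + 1 ∧ p.1.1 ≠ p.2.1

/-- value of a signed label, cube `[0,1]ⁿ` -/
def cv (x : Fin n → ℝ) (a : SL n) : ℝ := if a.2 then x a.1 else 1 - x a.1

/-- polytope in the cube -/
def OPB (R : SL n → SL n → Prop) : Set (Fin n → ℝ) :=
  {x | (∀ i, 0 ≤ x i ∧ x i ≤ 1) ∧ ∀ a b, R a b → cv x a ≤ cv x b}

/-- value of a signed label, `ℝⁿ` -/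
def sv (x : Fin n → ℝ) (a : SL n) : ℝ := if a.2 then x a.1 else -x a.1

/-- the cone of the compatible points -/
def ordB (R : SL n → SL n → Prop) : Set (Fin n → ℝ) := {x | ∀ a b, R a b → sv x a ≤ sv x b}

/-- the law of the conditioned points in Euclidean space, for any conditioning event -/
noncomputable def lawA (w : ℝ → ℝ) (A : Set (Fin n → ℝ)) : Measure (EuclideanSpace ℝ (Fin n)) :=
  (((pn w n) A)⁻¹ • (pn w n).restrict A).map (WithLp.toLp 2)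

/-- invariance under signed permutations -/
def SymB (G : (Fin n → ℝ) → ℝ) : Prop := ∀ (p : Equiv.Perm (Fin n)) (e : Fin n → Bool)
  (x : Fin n → ℝ), G (fun i => if e i then x (p i) else -x (p i)) = G x

end

/-- odd increasing `W` and symmetric rates -/
structure WB (N : ℕ) (W c : ℕ → ℝ) (m : ℝ) : Prop where
  wc : WC (2 * N) W c m
  odd : ∀ k, k < 2 * N → W (mir N k) = 2 * m - W k
  sym : ∀ k, k + 1 < 2 * N → c (2 * N - 2 - k) = c k

/-! ### A: lattice inequality -/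

/-- SB-PTB: coupling, one elementary move (adapt `R780.OP.t_PT`) -/
def S_PTB : Prop := ∀ (n N : ℕ) (R : SL n → SL n → Prop) (W c : ℕ → ℝ) (m : ℝ)
  (F : (Fin n → ℕ) → ℝ) (M : ℝ), Sy R → WB N W c m → 0 ≤ M →
  (∀ g ∈ cfgB N R, ∀ i j, i < j → j < 2 * N → mvB N i j g ∈ cfgB N R →
    |F (mvB N i j g) - F g| ≤ M * om N W i j) →
  ∀ s ∈ cfgB N R, ∀ i j, i < j → j < 2 * N → mvB N i j s ∈ cfgB N R →
  F (mvB N i j s) - F s = M * om N W i j → ∀ k, k < N →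
  ttB N R c F (mvB N i j s) k - ttB N R c F s k ≤
    M * (c k * (om N W (rf N k (k + 1) i) (rf N k (k + 1) j) - om N W i j))

/-- SB-SUMB: the one-particle equation on the `2 N` sites, elementary moves -/
def S_SUMB : Prop := ∀ (N : ℕ) (W c : ℕ → ℝ) (m : ℝ), WB N W c m → ∀ p, p < 2 * N →
  ∑ k ∈ Finset.range N, c k * (W (rf N k (k + 1) p) - W p) = m - W p

/-- SB-CONB: eigenvalues of nonconstant eigenfunctions are at least one (adapt `R560.OP.con`) -/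
def S_CONB : Prop := ∀ (n N : ℕ) (R : SL n → SL n → Prop) (W c : ℕ → ℝ) (m lam : ℝ)
  (F : (Fin n → ℕ) → ℝ), Sy R → WB N W c m → (∀ g ∈ cfgB N R, LLB N R c F g = -lam * F g) →
  (∃ g ∈ cfgB N R, ∃ k, k < N ∧ mvB N k (k + 1) g ∈ cfgB N R ∧ F (mvB N k (k + 1) g) ≠ F g) →
  1 ≤ lam

/-- SB-CONNB: connectivity (adapt `R574.OPConn.conn`) -/
def S_CONNB : Prop := ∀ (n N : ℕ) (R : SL n → SL n → Prop) (F : (Fin n → ℕ) → ℝ), Sy R →
  (∀ g ∈ cfgB N R, ∀ k, k < N → mvB N k (k + 1) g ∈ cfgB N R → F (mvB N k (k + 1) g) = F g) →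
  ∀ g ∈ cfgB N R, ∀ h ∈ cfgB N R, F g = F h

/-- SB-LATB: the lattice inequality (adapt `R972.OP.lat`) -/
def S_LATB : Prop := ∀ (n N : ℕ) (R : SL n → SL n → Prop) (W c : ℕ → ℝ) (m : ℝ), Sy R →
  WB N W c m → ∀ F : (Fin n → ℕ) → ℝ, ((cfgB N R).card : ℝ) * ∑ g ∈ cfgB N R, F g ^ 2 -
    (∑ g ∈ cfgB N R, F g) ^ 2 ≤ (cfgB N R).card * (1 / 2 * ∑ g ∈ cfgB N R, QQB N R c F g)

/-! ### B: the limit -/

/-- SB-RSB: Riemann sums (adapt `R364.OP.rs`) -/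
def S_RSB : Prop := ∀ (n : ℕ) (R : SL n → SL n → Prop), (∀ a, ¬ R a a) →
  ∀ G : (Fin n → ℝ) → ℝ, Continuous G →
  Tendsto (fun N : ℕ => (∑ g ∈ cfgB N R, G (lp (2 * N) g)) / ((2 * N : ℕ) : ℝ) ^ n) atTop
    (𝓝 (∫ x in OPB R, G x))

/-- SB-ADJB: few placements have labels at neighbouring sites (adapt `R372.OP.ADJ.main`) -/
def S_ADJB : Prop := ∀ (n : ℕ) (R : SL n → SL n → Prop),
  Tendsto (fun N : ℕ => (∑ g ∈ cfgB N R, ((adjB N g).card : ℝ)) / ((2 * N : ℕ) : ℝ) ^ n) atTop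
    (𝓝 0)

/-- SB-UPCB: the energy of a placement, by the kinds of exchanges (adapt `R972.OP.pieceUPC`) -/
def S_UPCB : Prop := ∀ (n N : ℕ) (R : SL n → SL n → Prop) (c : ℕ → ℝ) (F : (Fin n → ℕ) → ℝ),
  (∀ k, k + 1 < 2 * N → 0 ≤ c k) → (∀ k, k + 1 < 2 * N → c (2 * N - 2 - k) = c k) →
  ∀ g ∈ cfgB N R, QQB N R c F g ≤
    ∑ a, (if g a + 1 < 2 * N then
      c (g a) * (F (Function.update g a (g a + 1)) - F g) ^ 2 else 0) +
    ∑ a, (if 0 < g a then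
      c (g a - 1) * (F (Function.update g a (g a - 1)) - F g) ^ 2 else 0) +
    ∑ p ∈ adjB N g, c (ps N g p.1) * (F (mvB N (ps N g p.1) (ps N g p.1 + 1) g) - F g) ^ 2

/-- SB-LIMB: the weighted inequality on the polytopes -/
def S_LIMB : Prop := ∀ b : ℝ → ℝ, ContinuousOn b (Icc 0 1) → (∀ x ∈ Icc (0 : ℝ) 1, 0 ≤ b x) →
  (∀ x ∈ Icc (0 : ℝ) 1, b (1 - x) = b x) →
  (∀ᶠ N : ℕ in atTop, ∃ (W c : ℕ → ℝ) (m : ℝ), WB N W c m ∧
    ∀ k, k + 1 < 2 * N → c k ≤ rt b (2 * N) k) →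
  ∀ (n : ℕ) (R : SL n → SL n → Prop), Sy R → (∀ a, ¬ R a a) →
  ∀ f : (Fin n → ℝ) → ℝ, ContDiff ℝ 1 f →
  (volume (OPB R)).toReal * (∫ x in OPB R, f x ^ 2) - (∫ x in OPB R, f x) ^ 2 ≤
    (volume (OPB R)).toReal * ∫ x in OPB R, ∑ a, b (x a) * pd f a x ^ 2

/-! ### C: the weight and the transport -/

/-- the weight, even densities -/
def GoodB (w : ℝ → ℝ) (K δ : ℝ) : Prop := ∃ b : ℝ → ℝ, ContinuousOn b (Icc 0 1) ∧
  (∀ x ∈ Icc (0 : ℝ) 1, 0 ≤ b x) ∧ (∀ x ∈ Icc (0 : ℝ) 1, b (1 - x) = b x) ∧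
  (∀ᶠ N : ℕ in atTop, ∃ (W c : ℕ → ℝ) (m : ℝ), WB N W c m ∧
    ∀ k, k + 1 < 2 * N → c k ≤ rt b (2 * N) k) ∧
  ∀ x ∈ Ioo (0 : ℝ) 1, b x * (1 - 2 * δ) ^ 2 ≤ K * w (qt w (δ + (1 - 2 * δ) * x)) ^ 2

/-- SB-GOODB: symmetrisation. `b` is replaced by `max (b x) (b (1 - x))`, and `W_k` by
`(W_k + 2 m - W_{2N-1-k}) / 2`: the condition `c_k ≤ r_k` means
`∑_{l ≤ k} (m - W_l) ≤ r_k (W_{k+1} - W_k)`, which is linear in `W` -/
def S_GOODB : Prop := ∀ (w : ℝ → ℝ) (K δ : ℝ), LD w → (∀ x, w (-x) = w x) → 0 < δ → δ < 1 / 2 →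
  Good w K δ → GoodB w K δ

/-- SB-TRB: transport (adapt `J4H58.OC.Tr.tr`) -/
def S_TRB : Prop := ∀ (w : ℝ → ℝ) (K : ℝ), LD w → (∀ x, w (-x) = w x) → 0 < K →
  (∀ᶠ δ : ℝ in 𝓝[>] 0, GoodB w K δ) → ∀ (n : ℕ) (R : SL n → SL n → Prop), Sy R →
  (∀ a, ¬ R a a) → ∀ f : (Fin n → ℝ) → ℝ, ContDiff ℝ 1 f → HasCompactSupport f →
  (pn w n (ordB R)).toReal * (∫ x in ordB R, f x ^ 2 ∂(pn w n)) -
    (∫ x in ordB R, f x ∂(pn w n)) ^ 2 ≤
    (pn w n (ordB R)).toReal * (K * ∫ x in ordB R, ∑ a, pd f a x ^ 2 ∂(pn w n))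

/-- SB-DENB: the law has a log-concave density (adapt `J4H52.OC.Den`) -/
def S_DENB : Prop := ∀ (w : ℝ → ℝ) (n : ℕ) (A : Set (Fin n → ℝ)), LD w → IsClosed A →
  Convex ℝ A → pn w n A ≠ 0 → ∃ ρ : Eu (Fin n) → ℝ, LDn ρ ∧
    lawA w A = volume.withDensity fun x => ENNReal.ofReal (ρ x)

/-! ### D: the covariance -/

/-- SB-SYMB: symmetric functions (adapt `J4H21.OC.Sym`) -/
def S_SYMB : Prop := ∀ (n : ℕ) (ν : Measure ℝ), IsProbabilityMeasure ν → (∀ x, ν {x} = 0) →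
  ν.map (fun x => -x) = ν → ∀ (R : SL n → SL n → Prop) (G : (Fin n → ℝ) → ℝ),
  Integrable G (Measure.pi fun _ => ν) → SymB G →
  ∫ x in ordB R, G x ∂(Measure.pi fun _ => ν) =
    ((Measure.pi fun _ => ν) (ordB R)).toReal * ∫ x, G x ∂(Measure.pi fun _ => ν)

/-- SB-MAP: a small odd expansion of the line. With `ζ u = u + ε η u` on `[0,1]`,
`η u = - min (1/2 - u) u` for `u ≤ 1/2` and `η u = min (u - 1/2) (1 - u)` for `u ≥ 1/2`:
`x + D x = qt w (ζ (Fc w x))` on the support of `w` and `D = 0` outside; `ρ = 1 / ζ'(ζ⁻¹(Fc w x))`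
takes the values `1 / (1 ± ε)` -/
def S_MAP : Prop := ∃ C : ℝ, 1 ≤ C ∧ ∀ w : ℝ → ℝ, LD w → (∀ x, w (-x) = w x) →
  ∀ ε : ℝ, 0 < ε → ε ≤ 1 / 2 → ∃ D ρ : ℝ → ℝ, Measurable D ∧ Measurable ρ ∧
  (∀ x, D (-x) = -D x) ∧ (∀ x, ρ (-x) = ρ x) ∧ StrictMono (fun x => x + D x) ∧
  (∀ x, |ρ x - 1| ≤ 2 * ε) ∧
  (nu w).map (fun x => x + D x) = (nu w).withDensity (fun x => ENNReal.ofReal (ρ x)) ∧
  (∀ x, |D x| ≤ C * ε / w 0) ∧ ε / (C * w 0 ^ 2) ≤ ∫ x, x * D x ∂(nu w)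

/-- SB-M2: second moment -/
def S_M2 : Prop := ∀ w : ℝ → ℝ, LD w → (∀ x, w (-x) = w x) →
  0 < w 0 ∧ Integrable (fun x => x ^ 2) (nu w) ∧ ∫ x, x ^ 2 ∂(nu w) ≤ 4 / w 0 ^ 2

/-- SB-VARB: the largest variance (with `m` the mean vector of the law `μ`, `Π = ∏ ρ (x_i)`,
`ε = 1 / (2 √n)`: `E ⟨m, D x⟩ = E (⟨m, x⟩ - |m|²) (Π - 1) ≤ √s |m| √2`, because `E_μ (Π - 1)² =
(∫ ρ² dν)ⁿ - 1 ≤ 2`, and `E ⟨m, D x⟩ ≥ n ∫ x D x dν - n √s sup |D|`; `|m|² ≤ n ∫ x² dν`) -/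
def S_VARB : Prop := ∃ c : ℝ, 0 < c ∧ ∀ (w : ℝ → ℝ) (n : ℕ) (R : SL n → SL n → Prop), LD w →
  (∀ x, w (-x) = w x) → 1 ≤ n → pn w n (ordB R) ≠ 0 → ∀ s : ℝ, 0 < s →
  (∀ θ : EuclideanSpace ℝ (Fin n), ‖θ‖ = 1 →
    variance (fun x => ⟪x, θ⟫_ℝ) (lawA w (ordB R)) ≤ s) → c ≤ s * w 0 ^ 2

end Pool.Agent.J4H58.SB
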