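import Pool.Agent.J4H58.SB.Limb
import Pool.Agent.J4H58.OC.Tr

/-! SB-TRB: transport of the weighted inequality to the points with density `w` (after
`J4H58.OC.Tr`). -/

set_option autoImplicit false

namespace Pool.Agent.J4H58.SB.Trb

open MeasureTheory Set Filter Topology ProbabilityTheory
open scoped ENNReal
open Pool.Agent.R972.OP (WC pd)
open Pool.Agent.J4H58.OC (LD nu pn rt qt Fc S_Q)
open Pool.Agent.J4H58.OC.Tr

variable {w : ℝ → ℝ} {n : ℕ}

theorem Fc_neg (hw : LD w) (he : ∀ x, w (-x) = w x) (t : ℝ) : Fc w (-t) = 1 - Fc w t := by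
  have h1 := integral_comp_neg_Iic (-t) w
  rw [neg_neg] at h1
  have h2 : ∫ x in Iic (-t), w (-x) = ∫ x in Iic (-t), w x := by simp only [he]
  rw [h2] at h1
  have h3 := integral_add_compl (μ := (volume : Measure ℝ)) (measurableSet_Iic (a := t)) hw.int
  rw [compl_Iic, hw.one] at h3
  unfold Fc
  linarith

theorem qt_neg (hw : LD w) (hQ : S_Q) (he : ∀ x, w (-x) = w x) {u : ℝ} (hu : u ∈ Ioo (0 : ℝ) 1) :
    qt w (1 - u) = -qt w u := by
  obtain ⟨h1, h2, -, -, -, -⟩ := hQ w hw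
  have e1 := h1 u hu
  have e2 : Fc w (-qt w u) = 1 - u := by rw [Fc_neg hw he, e1]
  have e3 : Fc w (-qt w u) ∈ Ioo (0 : ℝ) 1 := by
    rw [e2]
    exact ⟨by linarith [hu.2], by linarith [hu.1]⟩
  have e4 := h2 _ e3
  rw [e2] at e4
  exact e4

theorem cv_mem {x : Fin n → ℝ} (hx : ∀ i, x i ∈ Ioo (0 : ℝ) 1) (a : SL n) :
    cv x a ∈ Ioo (0 : ℝ) 1 := by
  have h := hx a.1
  unfold cv
  split_ifs
  · exact h
  · exact ⟨by linarith [h.2], by linarith [h.1]⟩

theorem sv_Yq (hw : LD w) (hQ : S_Q) (he : ∀ x, w (-x) = w x) {x : Fin n → ℝ}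
    (hx : ∀ i, x i ∈ Ioo (0 : ℝ) 1) (a : SL n) : sv (Yq w x) a = qt w (cv x a) := by
  unfold sv cv Yq
  split_ifs
  · rfl
  · rw [qt_neg hw hQ he (hx a.1)]

theorem sv_cont (a : SL n) : Continuous fun x : Fin n → ℝ => sv x a := by
  unfold sv
  split_ifs
  · exact continuous_apply _
  · exact (continuous_apply _).neg

theorem ordB_closed (R : SL n → SL n → Prop) : IsClosed (ordB R) := by
  have h : ordB R = ⋂ a, ⋂ b, ⋂ (_ : R a b), {x : Fin n → ℝ | sv x a ≤ sv x b} := by
    ext x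
    simp only [ordB, mem_ofPred_eq, mem_iInter]
  rw [h]
  exact isClosed_iInter fun i => isClosed_iInter fun j => isClosed_iInter fun _ =>
        isClosed_le (sv_cont i) (sv_cont j)

/-- convergence of the integrals -/
theorem int_tendsto (hw : LD w) (hQ : S_Q) (R : SL n → SL n → Prop) {G : (Fin n → ℝ) → ℝ}
    (hG : Continuous G) {B : ℝ} (hB : ∀ x, |G x| ≤ B) :
    Tendsto (fun δ => ∫ x in OPB R, G (Y w δ x)) (𝓝[>] 0) (𝓝 (∫ x in OPB R, G (Yq w x))) := by
  have hfin : IsFiniteMeasure (volume.restrict (OPB R)) :=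
    ⟨by
      rw [Measure.restrict_apply_univ]
      exact (Limb.OPB_compact R).measure_lt_top⟩
  have h8 : ∀ᶠ δ : ℝ in 𝓝[>] 0, δ < 1 / 2 :=
    nhdsWithin_le_nhds (Iio_mem_nhds (by norm_num))
  refine tendsto_integral_filter_of_dominated_convergence (fun _ => B) ?_ ?_ (integrable_const B) ?_
  · filter_upwards [h8, self_mem_nhdsWithin] with δ h9 h10
    exact (hG.comp (Y_cd hw hQ h10 h9).continuous).aestronglyMeasurable
  · exact Eventually.of_forall fun δ => Eventually.of_forall fun x => hB _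
  · have h1 : ∀ᵐ x ∂(volume.restrict (OPB R)), x ∈ pi univ fun _ : Fin n => Ioo (0 : ℝ) 1 := by
      have h2 : (pi univ fun _ : Fin n => Ioo (0 : ℝ) 1) =ᵐ[volume] Icc (0 : Fin n → ℝ) 1 :=
        Measure.univ_pi_Ioo_ae_eq_Icc (μ := fun _ : Fin n => (volume : Measure ℝ)) (f := 0) (g := 1)
      rw [ae_restrict_iff' (Limb.OPB_closed R).measurableSet]
      filter_upwards [h2] with x hx hxR
      have h3 : x ∈ Icc (0 : Fin n → ℝ) 1 := ⟨fun i => (hxR.1 i).1, fun i => (hxR.1 i).2⟩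
      exact (eq_iff_iff.1 hx).2 h3
    filter_upwards [h1] with x hx
    exact (hG.tendsto _).comp (Y_tendsto hw hQ fun i => hx i (mem_univ i))

/-- the change of variables -/
theorem change (hw : LD w) (hQ : S_Q) (he : ∀ x, w (-x) = w x) (R : SL n → SL n → Prop)
    {G : (Fin n → ℝ) → ℝ} (hG : Measurable G) :
    ∫ x in OPB R, G (Yq w x) = ∫ x in ordB R, G x ∂(pn w n) := by
  obtain ⟨-, -, h3, h4, h5, -⟩ := hQ w hw
  have hq := qt_aem hw hQ
  have hmB : MeasurableSet (ordB R) := (ordB_closed R).measurableSet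
  set lam : Measure ℝ := volume.restrict (Ioo (0 : ℝ) 1) with hlam
  have hnu : IsProbabilityMeasure (nu w) := by
    rw [← h5]
    have : IsProbabilityMeasure lam := ⟨by rw [hlam]; simp⟩
    exact Measure.isProbabilityMeasure_map hq
  have hmap : (Measure.pi fun _ : Fin n => lam).map (Yq w) = pn w n := by
    have hs : ∀ _ : Fin n, SigmaFinite (lam.map (qt w)) := fun _ => by
      rw [h5]
      infer_instance
    have h6 := Measure.pi_map_pi (μ := fun _ : Fin n => lam) (f := fun _ => qt w) (hμ := hs)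
      (fun _ => hq)
    unfold pn
    rw [← h5]
    exact h6
  have hpi : (Measure.pi fun _ : Fin n => lam) =
      (volume : Measure (Fin n → ℝ)).restrict (pi univ fun _ => Ioo (0 : ℝ) 1) := by
    rw [hlam, volume_pi]
    exact (Measure.restrict_pi_pi (μ := fun _ : Fin n => (volume : Measure ℝ))
      (fun _ => Ioo (0 : ℝ) 1)).symm
  have hQm : AEMeasurable (Yq (n := n) w) (Measure.pi fun _ : Fin n => lam) := by
    apply aemeasurable_pi_lambda
    intro i
    exact hq.comp_quasiMeasurePreserving (Measure.quasiMeasurePreserving_eval _ i)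
  rw [← integral_indicator hmB, ← hmap, integral_map hQm
    ((hG.indicator hmB).aestronglyMeasurable), hpi]
  have hmO : MeasurableSet (OPB R) := (Limb.OPB_closed R).measurableSet
  have hae : (OPB R : Set (Fin n → ℝ)) =ᵐ[volume]
      ((OPB R ∩ pi univ fun _ : Fin n => Ioo (0 : ℝ) 1 : Set (Fin n → ℝ))) := by
    have h2 : (pi univ fun _ : Fin n => Ioo (0 : ℝ) 1) =ᵐ[volume] Icc (0 : Fin n → ℝ) 1 :=
      Measure.univ_pi_Ioo_ae_eq_Icc (μ := fun _ : Fin n => (volume : Measure ℝ)) (f := 0) (g := 1)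
    filter_upwards [h2] with x hx
    apply eq_iff_iff.2
    constructor
    · intro hxR
      exact ⟨hxR, (eq_iff_iff.1 hx).2 ⟨fun i => (hxR.1 i).1, fun i => (hxR.1 i).2⟩⟩
    · rintro ⟨hx1, -⟩
      exact hx1
  rw [Measure.restrict_congr_set hae, ← Measure.restrict_restrict hmO,
    ← integral_indicator hmO]
  apply setIntegral_congr_fun (MeasurableSet.univ_pi fun _ => measurableSet_Ioo)
  intro x hx
  have hx' : ∀ i, x i ∈ Ioo (0 : ℝ) 1 := fun i => hx i (mem_univ i)
  have hiff : Yq w x ∈ ordB R ↔ x ∈ OPB R := by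
    constructor
    · intro h
      refine ⟨fun i => ⟨(hx' i).1.le, (hx' i).2.le⟩, fun a b hab => ?_⟩
      have h7 := h a b hab
      rw [sv_Yq hw hQ he hx', sv_Yq hw hQ he hx'] at h7
      exact (h4.le_iff_le (cv_mem hx' a) (cv_mem hx' b)).1 h7
    · intro h a b hab
      rw [sv_Yq hw hQ he hx', sv_Yq hw hQ he hx']
      exact (h4.le_iff_le (cv_mem hx' a) (cv_mem hx' b)).2 (h.2 a b hab)
  show (OPB R).indicator (fun x => G (Yq w x)) x = (ordB R).indicator G (Yq w x)
  by_cases hxo : x ∈ OPB R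
  · rw [indicator_of_mem hxo, indicator_of_mem (hiff.2 hxo)]
  · rw [indicator_of_notMem hxo, indicator_of_notMem (fun h => hxo (hiff.1 h))]

theorem trb (hQ : S_Q) (hL : S_LIMB) : S_TRB := by
  intro w K hw he hK hgood n R hS hR f hf hcs
  obtain ⟨-, -, h3, -, -, -⟩ := hQ w hw
  -- bounds
  obtain ⟨B, hB⟩ := hcs.exists_bound_of_continuous hf.continuous
  have hcd : HasCompactSupport (fderiv ℝ f) := hcs.fderiv (𝕜 := ℝ)
  obtain ⟨B', hB'⟩ := hcd.exists_bound_of_continuous (hf.continuous_fderiv one_ne_zero)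
  have hpdB : ∀ x a, |pd f a x| ≤ B' := by
    intro x a
    unfold pd
    rw [← Real.norm_eq_abs]
    calc ‖fderiv ℝ f x (Pi.single a 1)‖ ≤ ‖fderiv ℝ f x‖ * ‖(Pi.single a 1 : Fin n → ℝ)‖ :=
          ContinuousLinearMap.le_opNorm _ _
      _ = ‖fderiv ℝ f x‖ := by rw [Pi.norm_single, norm_one, mul_one]
      _ ≤ B' := hB' x
  set E : (Fin n → ℝ) → ℝ := fun x => ∑ a, pd f a x ^ 2 with hE
  have hEc : Continuous E := continuous_finsetSum _ fun a _ => (pd_cont hf a).pow 2
  have hEB : ∀ x, |E x| ≤ n * B' ^ 2 := by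
    intro x
    rw [abs_of_nonneg (Finset.sum_nonneg fun a _ => sq_nonneg _)]
    calc E x ≤ ∑ _a : Fin n, B' ^ 2 := by
          apply Finset.sum_le_sum
          intro a _
          rw [← sq_abs]
          exact pow_le_pow_left₀ (abs_nonneg _) (hpdB x a) 2
      _ = n * B' ^ 2 := by simp
  have hfB : ∀ x, |f x| ≤ B := fun x => by
    rw [← Real.norm_eq_abs]
    exact hB x
  have hf2B : ∀ x, |f x ^ 2| ≤ B ^ 2 := fun x => by
    rw [abs_pow]
    exact pow_le_pow_left₀ (abs_nonneg _) (hfB x) 2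
  -- limits
  have t1 := int_tendsto hw hQ R hf.continuous hfB
  have t2 := int_tendsto hw hQ R (hf.continuous.pow 2) hf2B
  have t3 := int_tendsto hw hQ R hEc hEB
  rw [change hw hQ he R hf.continuous.measurable] at t1
  rw [change hw hQ he R (hf.continuous.pow 2).measurable] at t2
  rw [change hw hQ he R hEc.measurable] at t3
  have hV : (pn w n (ordB R)).toReal = (volume (OPB R)).toReal := by
    have h4 := change hw hQ he R (G := fun _ => (1 : ℝ)) measurable_const
    rw [setIntegral_const, setIntegral_const] at h4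
    simp only [smul_eq_mul, mul_one, Measure.real] at h4
    exact h4.symm
  rw [hV]
  set V := (volume (OPB R)).toReal with hVdef
  have hV0 : 0 ≤ V := ENNReal.toReal_nonneg
  have tL := (t2.const_mul V).sub (t1.pow 2)
  have tR := (t3.const_mul K).const_mul V
  refine le_of_tendsto_of_tendsto tL tR ?_
  have h8 : ∀ᶠ δ : ℝ in 𝓝[>] 0, δ < 1 / 2 :=
    nhdsWithin_le_nhds (Iio_mem_nhds (by norm_num))
  filter_upwards [h8, self_mem_nhdsWithin, hgood] with δ h1 h0 hg
  have h0' : 0 < δ := h0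
  obtain ⟨b, hb, hb0, hbs, hbW, hbK⟩ := hg
  have hgc : ContDiff ℝ 1 (fun x : Fin n → ℝ => f (Y w δ x)) := hf.comp (Y_cd hw hQ h0' h1)
  have hlim := hL b hb hb0 hbs hbW n R hS hR (fun x => f (Y w δ x)) hgc
  refine hlim.trans ?_
  apply mul_le_mul_of_nonneg_left _ hV0
  rw [← integral_const_mul]
  have hcomp : IsCompact (OPB R) := Limb.OPB_compact R
  have hmeas : MeasurableSet (OPB R) := (Limb.OPB_closed R).measurableSet
  apply integral_mono_ae
  · have hcon : ContinuousOn (fun x : Fin n → ℝ => ∑ a, b (x a) *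
        pd (fun x => f (Y w δ x)) a x ^ 2) (OPB R) := by
      apply continuousOn_finsetSum
      intro a _
      apply ContinuousOn.mul
      · exact hb.comp (continuous_apply a).continuousOn fun x hx => hx.1 a
      · exact ((pd_cont hgc a).pow 2).continuousOn
    exact hcon.integrableOn_compact hcomp
  · have hcon : Continuous fun x : Fin n → ℝ => K * E (Y w δ x) :=
      continuous_const.mul (hEc.comp (Y_cd hw hQ h0' h1).continuous)
    exact hcon.continuousOn.integrableOn_compact hcomp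
  · have h2 : (pi univ fun _ : Fin n => Ioo (0 : ℝ) 1) =ᵐ[volume] Icc (0 : Fin n → ℝ) 1 :=
      Measure.univ_pi_Ioo_ae_eq_Icc (μ := fun _ : Fin n => (volume : Measure ℝ)) (f := 0) (g := 1)
    show ∀ᵐ x ∂(volume.restrict (OPB R)), _
    rw [ae_restrict_iff' hmeas]
    filter_upwards [h2] with x hx hxR
    have hxI : x ∈ pi univ fun _ : Fin n => Ioo (0 : ℝ) 1 :=
      (eq_iff_iff.1 hx).2 ⟨fun i => (hxR.1 i).1, fun i => (hxR.1 i).2⟩
    show ∑ a, b (x a) * pd (fun x => f (Y w δ x)) a x ^ 2 ≤ K * E (Y w δ x)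
    rw [hE, Finset.mul_sum]
    apply Finset.sum_le_sum
    intro a _
    have hxa := hxI a (mem_univ a)
    have hpm := ph_mem h1 (hxR.1 a)
    have hpm' : ph δ (x a) ∈ Ioo (0 : ℝ) 1 :=
      ⟨lt_of_lt_of_le h0' hpm.1, lt_of_le_of_lt hpm.2 (by linarith)⟩
    have hpos := (h3 _ hpm').1
    rw [pd_comp hw hQ h0' h1 hf x a]
    have hbk := hbK _ hxa
    have e1 : hd w δ (ph δ (x a)) = (w (qt w (ph δ (x a))))⁻¹ := by
      unfold hd
      rw [cl_eq hpm]
    rw [e1]
    have e2 : b (x a) * ((w (qt w (ph δ (x a))))⁻¹ * (1 - 2 * δ) * pd f a (Y w δ x)) ^ 2 =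
        b (x a) * (1 - 2 * δ) ^ 2 * ((w (qt w (ph δ (x a)))) ^ 2)⁻¹ * pd f a (Y w δ x) ^ 2 := by
      rw [mul_pow, mul_pow, inv_pow]
      ring
    rw [e2]
    apply mul_le_mul_of_nonneg_right _ (sq_nonneg _)
    rw [← div_eq_mul_inv, div_le_iff₀ (by positivity)]
    exact hbk

end Pool.Agent.J4H58.SB.Trb
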